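import Pool.Agent.Helper37.LN3.Defs
import Pool.Agent.Helper22.LN.DEN
import Pool.Agent.Helper79.M.W3

/-!
# The primes whose Frobenius elements act like a given automorphism (project LN3, block DEN3)
-/

set_option autoImplicit false

open NumberField Filter Topology IsDedekindDomain MulAction
open scoped Pointwise

namespace Pool.Agent.Helper79.LN3

open Pool.Agent.HG Pool.Agent.H53SCD Pool.Agent.Helper21.HG
open Pool.Agent.Helper22.LN (Emb odd_nonunit finite_odd)
open Pool.Agent.Helper22.L (phi_nonunit exists_gen int_mem)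
open Pool.Agent.L (OverV)
open Pool.Agent.LN2 (FixesD)
open Pool.Agent.LN (GoodCurve)
open Pool.Agent.Helper79.M (Cst exists_cst IsF exists_hom_prime)

noncomputable section

section branch

open VC Polynomial IntermediateField

variable {k K0 E : Type} [Field k] [NumberField k] [Field K0] [Algebra k K0] [Field E] [Algebra k E]
  [Algebra.IsAlgebraic k E]

omit [NumberField k] in
/-- Two embeddings of the residue field of a branch point are conjugate. -/
theorem conj_emb [IsAlgClosed E] {n : ℕ} {h : K0} {P : ValuationSubring K0} {φ φ' : P →+* E}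
    (hφ : Emb k n h P φ) (hφ' : Emb k n h P φ') {a : P} (ha : ∀ x : P, φ x ∈ k⟮φ a⟯) :
    ∃ τ : E ≃ₐ[k] E, ∀ x, φ' x = τ (φ x) := by
  have hcl : IsAlgClosure k E := ⟨inferInstance, inferInstance⟩
  have hnor : Normal k E := IsAlgClosure.normal k E
  have hk := hφ.1
  let a1 : Algebra k P := ((algebraMap k K0).codRestrict P.toSubring hk).toAlgebra
  let ψ : P →ₐ[k] E := { φ with commutes' := fun a => hφ.2.2 a _ rfl }
  let ψ' : P →ₐ[k] E := { φ' with commutes' := fun a => hφ'.2.2 a _ rfl }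
  have key : ∀ x : P, ψ x = 0 → ψ' x = 0 := by
    intro x hx
    apply phi_nonunit P hk φ' hφ'.2.2 x
    rw [ValuationSubring.coe_mem_nonunits_iff, IsLocalRing.mem_maximalIdeal, mem_nonunits_iff]
    intro hu
    exact (hu.map ψ).ne_zero hx
  have h1 : aeval (ψ' a) (minpoly k (ψ a)) = 0 := by
    rw [aeval_algHom_apply]
    apply key
    rw [← aeval_algHom_apply]
    exact minpoly.aeval _ _
  obtain ⟨τ, hτ⟩ := minpoly.exists_algEquiv_of_root' (Algebra.IsAlgebraic.isAlgebraic (ψ a)) h1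
  refine ⟨τ, fun x => ?_⟩
  have hx : ψ x ∈ k⟮ψ a⟯ := ha x
  have hx' : ψ x ∈ Algebra.adjoin k {ψ a} := by
    rw [← adjoin_simple_toSubalgebra_of_isAlgebraic (Algebra.IsAlgebraic.isAlgebraic (ψ a))]
    exact hx
  rw [Algebra.adjoin_singleton_eq_range_aeval] at hx'
  obtain ⟨q, hq⟩ := hx'
  have hq1 : aeval (ψ a) q = ψ x := hq
  have h2 : ψ (x - aeval a q) = 0 := by
    rw [map_sub, ← aeval_algHom_apply, hq1, sub_self]
  have h3 := key _ h2
  rw [map_sub, sub_eq_zero, ← aeval_algHom_apply, ← hτ] at h3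
  change ψ' x = τ (ψ x)
  rw [h3, ← hq1]
  exact (aeval_algHom_apply (τ : E →ₐ[k] E) (ψ a) q)

/-- A finite Galois extension which contains the values of all embeddings of the residue fields of the
branch points. -/
theorem exists_field [IsAlgClosed E] {n : ℕ} (hn : 2 ≤ n) (hF : IsFunctionField k K0) (h : K0) :
    ∃ L : IntermediateField k E, FiniteDimensional k L ∧ Normal k L ∧
      ∀ (P : ValuationSubring K0) (φ : P →+* E), Emb k n h P φ → ∀ x, φ x ∈ L := by
  classical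
  have hcl : IsAlgClosure k E := ⟨inferInstance, inferInstance⟩
  have hnor : Normal k E := IsAlgClosure.normal k E
  have hfin := finite_odd hn hF h
  have hex : ∀ P : ValuationSubring K0, ∃ θ : E, (∃ φ : P →+* E, Emb k n h P φ) →
      ∃ (φ : P →+* E) (a : P), Emb k n h P φ ∧ φ a = θ ∧ ∀ x, φ x ∈ k⟮φ a⟯ := by
    intro P
    by_cases hP : ∃ φ : P →+* E, Emb k n h P φ
    · obtain ⟨φ, hφ⟩ := hP
      obtain ⟨a, ha⟩ : ∃ a : P, ∀ x : P, φ x ∈ k⟮φ a⟯ := by
        obtain ⟨h0, h1 | h1⟩ := odd_nonunit hn hφ.2.1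
        · exact exists_gen hF P hφ.1 h0 h1 φ hφ.2.2
        · exact exists_gen hF P hφ.1 (inv_ne_zero h0) h1 φ hφ.2.2
      exact ⟨φ a, fun _ => ⟨φ, a, hφ, rfl, ha⟩⟩
    · exact ⟨0, fun h' => absurd h' hP⟩
  choose Θ hΘ using hex
  set M : IntermediateField k E := IntermediateField.adjoin k (Θ '' hfin.toFinset) with hM
  have hMfd : FiniteDimensional k M := by
    have hf : (Θ '' (hfin.toFinset : Set (ValuationSubring K0))).Finite :=
      (Finset.finite_toSet _).image _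
    have := hf.to_subtype
    exact IntermediateField.finiteDimensional_adjoin fun x _ =>
      (Algebra.IsAlgebraic.isAlgebraic x).isIntegral
  refine ⟨IntermediateField.normalClosure k M E, inferInstance, inferInstance, ?_⟩
  intro P φ' hφ' x
  obtain ⟨φ, a, hφ, ha, hgen⟩ := hΘ P ⟨φ', hφ'⟩
  obtain ⟨τ, hτ⟩ := conj_emb hφ hφ' hgen
  rw [hτ]
  have h1 : φ a ∈ M := by
    rw [ha]
    refine IntermediateField.subset_adjoin k _ ⟨P, ?_, rfl⟩
    rw [Finset.mem_coe, Set.Finite.mem_toFinset]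
    exact ⟨hφ.1, hφ.2.1⟩
  have h2 : φ x ∈ IntermediateField.normalClosure k M E := by
    refine IntermediateField.le_normalClosure M ?_
    have h3 : k⟮φ a⟯ ≤ M := by
      rw [IntermediateField.adjoin_simple_le_iff]
      exact h1
    exact h3 (hgen x)
  have key : ∀ L : IntermediateField k E, Normal k L → ∀ y ∈ L, τ y ∈ L := by
    intro L hL y hy
    have h5 := (τ.restrictNormal L ⟨y, hy⟩).2
    rwa [show ((τ.restrictNormal L ⟨y, hy⟩ : L) : E) = τ y from
      τ.restrictNormal_commutes L ⟨y, hy⟩] at h5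
  exact key _ inferInstance _ h2

end branch

/-! ## Powers of Frobenius elements -/

variable {k L : Type} [Field k] [NumberField k] [Field L] [NumberField L] [Algebra k L]

theorem IsF.pow {v : Pr k} {P : Pr L} {τ : L ≃ₐ[k] L} (h : IsF v P τ) (f : ℕ) (z : 𝓞 L) :
    τ ^ f • z - z ^ nm v ^ f ∈ P.asIdeal := by
  induction f with
  | zero => simp
  | succ f ih =>
    have h1 := h.int (τ ^ f • z)
    have h2 : (τ ^ f • z) ^ nm v - (z ^ nm v ^ f) ^ nm v ∈ P.asIdeal :=
      Ideal.mem_of_dvd _ (sub_dvd_pow_sub_pow _ _ _) ih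
    have h3 := add_mem h1 h2
    rw [sub_add_sub_cancel, ← mul_smul, ← pow_succ', ← pow_mul, ← pow_succ] at h3
    exact h3

theorem frob_unique {N : ℕ} (hN : Cst k L N) {v : Pr k} {P : Pr L} {τ g : L ≃ₐ[k] L}
    (h : IsF v P τ) (f : ℕ) (hg : ∀ z : 𝓞 L, g • z - z ^ nm v ^ f ∈ P.asIdeal)
    (hNv : (N : 𝓞 k) ∉ v.asIdeal) : g = τ ^ f := by
  obtain ⟨p, hp, hpv⟩ := exists_prime v
  have := Fact.mk hp
  have hpN : ¬ p ∣ N := by
    rintro ⟨m, hm⟩
    apply hNv
    rw [hm, Nat.cast_mul]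
    exact Ideal.mul_mem_right _ _ hpv
  have hpP : (p : 𝓞 L) ∈ P.asIdeal := by
    rw [← h.1, Ideal.mem_comap, map_natCast] at hpv
    exact hpv
  obtain ⟨Φ, hΦ⟩ := exists_hom_prime P p hpP
  have h1 : ∀ z : 𝓞 L, Φ (g • z) = Φ (τ ^ f • z) := by
    intro z
    have h2 := sub_mem (hg z) (IsF.pow h f z)
    rw [sub_sub_sub_cancel_right, ← hΦ, map_sub, sub_eq_zero] at h2
    exact h2
  have h2 := hN.unr p hpN Φ (g * (τ ^ f)⁻¹) (fun z => by rw [mul_smul, h1, smul_inv_smul])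
  rwa [mul_inv_eq_one] at h2

theorem cyc_pow {G : Type*} [Group G] {τ σ g : G}
    (h : Subgroup.zpowers τ = Subgroup.zpowers (g * σ * g⁻¹)) (f : ℕ) :
    g * σ ^ f * g⁻¹ ∈ Subgroup.zpowers (τ ^ f) := by
  have h1 : g * σ * g⁻¹ ∈ Subgroup.zpowers τ := by rw [h]; exact Subgroup.mem_zpowers _
  obtain ⟨m, hm⟩ := Subgroup.mem_zpowers_iff.1 h1
  refine Subgroup.mem_zpowers_iff.2 ⟨m, ?_⟩
  rw [← conj_pow, ← hm, ← zpow_natCast, ← zpow_natCast, ← zpow_mul, ← zpow_mul, mul_comm]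

open scoped Classical in
/-- Finitely many primes do not matter. -/
theorem sum_diff (B : ℕ → Finset (Pr k)) (Q Q' : Set (Pr k)) (hQ : Q ⊆ Q') (T : Finset (Pr k))
    (hT : ∀ v ∈ Q', v ∉ Q → v ∈ T) (x : ℕ) :
    |∑ v ∈ (B x).filter (· ∈ Q), (1 : ℝ) / nm v - ∑ v ∈ (B x).filter (· ∈ Q'), (1 : ℝ) / nm v| ≤
      ∑ v ∈ T, (1 : ℝ) / nm v := by
  have h1 : ∑ v ∈ (B x).filter (· ∈ Q'), (1 : ℝ) / nm v = ∑ v ∈ (B x).filter (· ∈ Q), (1 : ℝ) / nm v +
      ∑ v ∈ ((B x).filter (· ∈ Q')).filter (fun v => ¬ v ∈ Q), (1 : ℝ) / nm v := by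
    rw [← Finset.sum_filter_add_sum_filter_not ((B x).filter (· ∈ Q')) (fun v => v ∈ Q)]
    congr 1
    rw [Finset.filter_filter]
    exact Finset.sum_congr (Finset.filter_congr fun v _ => ⟨fun h => h.2, fun h => ⟨hQ h, h⟩⟩)
      fun _ _ => rfl
  have h2 : 0 ≤ ∑ v ∈ ((B x).filter (· ∈ Q')).filter (fun v => ¬ v ∈ Q), (1 : ℝ) / nm v :=
    Finset.sum_nonneg fun v _ => by positivity
  have h3 : ∑ v ∈ ((B x).filter (· ∈ Q')).filter (fun v => ¬ v ∈ Q), (1 : ℝ) / nm v ≤
      ∑ v ∈ T, (1 : ℝ) / nm v := by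
    refine Finset.sum_le_sum_of_subset_of_nonneg (fun v hv => ?_) fun v _ _ => by positivity
    rw [Finset.mem_filter, Finset.mem_filter] at hv
    exact hT v hv.1.2 hv.2
  rw [h1, abs_le]
  constructor <;> linarith

/-! ## The block -/

/-- **BLOCK DEN3.** -/
theorem den : Pool.Agent.LN3.StmtDEN := by
  classical
  intro k K0 _ _ _ _ n h hn hG σ B hB
  obtain ⟨L, hfd, hLn, hL⟩ := exists_field (E := AlgebraicClosure k) hn hG.ff h
  have hgal : IsGalois k L := ⟨⟩
  have hnf : NumberField L := NumberField.of_module_finite k L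
  have hres : ∀ (g : AlgebraicClosure k ≃ₐ[k] AlgebraicClosure k) (x : L),
      ((g.restrictNormal L x : L) : AlgebraicClosure k) = g x := fun g x => g.restrictNormal_commutes L x
  obtain ⟨N, hN0, hN⟩ := exists_cst k L
  -- the set of classes
  set s : L ≃ₐ[k] L := σ.restrictNormal L with hs
  set C : Set (L ≃ₐ[k] L) := {τ | ∃ g : L ≃ₐ[k] L, Subgroup.zpowers τ = Subgroup.zpowers (g * s * g⁻¹)}
    with hC
  obtain ⟨C₀, Bad, Q', hBad, hQ', hsum⟩ := Pool.Agent.M.w3 k L C (by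
      rintro τ ⟨g, hg⟩ τ' hτ'
      exact ⟨g, hτ'.trans hg⟩) (by
      rintro τ ⟨g, hg⟩ g'
      refine ⟨g' * g, ?_⟩
      have h1 : g' * g * s * (g' * g)⁻¹ = g' * (g * s * g⁻¹) * g'⁻¹ := by group
      rw [h1]
      have key : ∀ a b : L ≃ₐ[k] L, Subgroup.zpowers a ≤ Subgroup.zpowers b →
          Subgroup.zpowers (g' * a * g'⁻¹) ≤ Subgroup.zpowers (g' * b * g'⁻¹) := by
        intro a b hab
        rw [Subgroup.zpowers_le] at hab ⊢
        obtain ⟨m, hm⟩ := Subgroup.mem_zpowers_iff.1 hab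
        refine Subgroup.mem_zpowers_iff.2 ⟨m, ?_⟩
        rw [conj_zpow, hm]
      exact le_antisymm (key _ _ hg.le) (key _ _ hg.ge)) B hB
  have hsC : s ∈ C := ⟨1, by rw [one_mul, inv_one, mul_one]⟩
  have hcard : (0 : ℝ) < (Nat.card C : ℝ) / Nat.card (L ≃ₐ[k] L) := by
    have : Nonempty C := ⟨⟨s, hsC⟩⟩
    have h1 : 0 < Nat.card C := Nat.card_pos
    have h2 : 0 < Nat.card (L ≃ₐ[k] L) := Nat.card_pos
    have h1' : (0 : ℝ) < Nat.card C := by exact_mod_cast h1
    have h2' : (0 : ℝ) < Nat.card (L ≃ₐ[k] L) := by exact_mod_cast h2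
    exact div_pos h1' h2'
  have hNfin : {v : Pr k | (N : 𝓞 k) ∈ v.asIdeal}.Finite := by
    have h3 : Ideal.span {(N : 𝓞 k)} ≠ 0 := by
      rw [Ne, Ideal.zero_eq_bot, Ideal.span_singleton_eq_bot]
      exact_mod_cast hN0
    exact (Ideal.finite_factors h3).subset fun v hv => Ideal.dvd_span_singleton.2 hv
  obtain ⟨Q, hQ⟩ : ∃ Q : Set (Pr k), ∀ v, v ∈ Q ↔ v ∈ Q' ∧ v ∉ Bad ∧ (N : 𝓞 k) ∉ v.asIdeal :=
    ⟨{v | v ∈ Q' ∧ v ∉ Bad ∧ (N : 𝓞 k) ∉ v.asIdeal}, fun _ => Iff.rfl⟩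
  refine ⟨_, C₀ + ∑ v ∈ hBad.toFinset ∪ hNfin.toFinset, (1 : ℝ) / nm v, Q, hcard, ?_, ?_⟩
  · intro v hv O hO f F hf hFO hFz D hDn hfix
    obtain ⟨hv', hvB, hvN⟩ := (hQ v).1 hv
    obtain ⟨P0, φ, hk, hD, hφ, hFφ⟩ := hfix
    have hEmb : Emb k n h P0 φ := ⟨hk, hD n hDn, hφ⟩
    have hφL := hL P0 φ hEmb
    -- the prime of `L` below `O`
    have hmemO : ∀ b : 𝓞 L, ((b : L) : AlgebraicClosure k) ∈ O := fun b =>
      int_mem O ((RingOfIntegers.isIntegral_coe b).map (L.val.restrictScalars ℤ))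
    let ρ : 𝓞 L →+* O := ((algebraMap L (AlgebraicClosure k)).comp (algebraMap (𝓞 L) L)).codRestrict
      O.toSubring hmemO
    let I : Ideal (𝓞 L) := (IsLocalRing.maximalIdeal O).comap ρ
    have hI : ∀ b : 𝓞 L, b ∈ I ↔ O.valuation ((b : L) : AlgebraicClosure k) < 1 := by
      intro b
      rw [Ideal.mem_comap, O.valuation_lt_one_iff]
      rfl
    have hval : ∀ a : 𝓞 k, O.valuation (algebraMap k (AlgebraicClosure k) (a : k)) < 1 ↔
        a ∈ v.asIdeal := by
      intro a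
      rw [← HeightOneSpectrum.valuation_lt_one_iff_mem (K := k) v a]
      rcases eq_or_ne (a : k) 0 with h0 | h0
      · rw [h0, map_zero, map_zero]
        have h1 : v.valuation k (algebraMap (𝓞 k) k a) = 0 := by
          rw [show (algebraMap (𝓞 k) k a) = 0 from h0, map_zero]
        exact ⟨fun _ => lt_of_le_of_lt h1.le zero_lt_one, fun _ => zero_lt_one⟩
      · have h1 := hO ((a : k)⁻¹)
        rw [map_inv₀, map_inv₀, ← O.valuation_le_one_iff, map_inv₀,
          inv_le_one₀ (zero_lt_iff.2 ((Valuation.ne_zero_iff _).2 ((_root_.map_ne_zero _).2 h0))),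
          inv_le_one₀ (zero_lt_iff.2 ((Valuation.ne_zero_iff _).2 h0))] at h1
        rw [← not_le, ← not_le, h1]
    have hcomap : I.comap (algebraMap (𝓞 k) (𝓞 L)) = v.asIdeal := by
      ext a
      rw [Ideal.mem_comap, hI, ← hval]
      rfl
    have hIp : I.IsPrime := Ideal.IsPrime.comap ρ
    have hIb : I ≠ ⊥ := by
      intro h0
      apply v.ne_bot
      rw [← hcomap, h0, eq_bot_iff]
      intro a ha
      rw [Ideal.mem_comap, Ideal.mem_bot] at ha
      rw [Ideal.mem_bot]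
      exact (FaithfulSMul.algebraMap_injective (𝓞 k) (𝓞 L)) (by rw [ha, map_zero])
    set P : Pr L := ⟨I, hIp, hIb⟩ with hP
    obtain ⟨τ, -, hτ⟩ := exists_frob (P := P) hcomap
    have hτF : IsF v P τ := ⟨hcomap, hτ⟩
    obtain ⟨g, hg⟩ : τ ∈ C := (hQ' v hvB P τ hcomap hτ).1 hv'
    -- `F` is the power of `τ`
    have hFτ : F.restrictNormal L = τ ^ f := by
      refine frob_unique hN hτF f (fun z => ?_) hvN
      change _ ∈ I
      rw [hI]
      have h1 := hFz ((z : L) : AlgebraicClosure k) (hmemO z)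
      have h2 : (((F.restrictNormal L • z - z ^ nm v ^ f : 𝓞 L) : L) : AlgebraicClosure k) =
          F ((z : L) : AlgebraicClosure k) - ((z : L) : AlgebraicClosure k) ^ nm v ^ f := by
        rw [← hres]
        push_cast
        rfl
      rw [h2]
      exact h1
    -- the conjugate embedding
    obtain ⟨g', hg'⟩ := AlgEquiv.restrictNormalHom_surjective (F := k) (K₁ := L) (AlgebraicClosure k) g
    have hg'' : g'.restrictNormal L = g := hg'
    obtain ⟨m, hm⟩ := Subgroup.mem_zpowers_iff.1 (cyc_pow hg f)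
    -- `g s^f g⁻¹` fixes the values of `φ`
    have hfixL : ∀ x : P0, (g * s ^ f * g⁻¹) ⟨φ x, hφL x⟩ = ⟨φ x, hφL x⟩ := by
      intro x
      rw [← hm, ← hFτ]
      have h1 : F.restrictNormal L ∈ MulAction.stabilizer (L ≃ₐ[k] L) (⟨φ x, hφL x⟩ : L) := by
        rw [MulAction.mem_stabilizer_iff]
        apply Subtype.ext
        change ((F.restrictNormal L ⟨φ x, hφL x⟩ : L) : AlgebraicClosure k) = φ x
        rw [hres]
        exact hFφ x
      exact MulAction.mem_stabilizer_iff.1 (Subgroup.zpow_mem _ h1 m)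
    have hσf : (σ ^ f).restrictNormal L = s ^ f := map_pow (AlgEquiv.restrictNormalHom L) σ f
    refine ⟨P0, (g'.symm : AlgebraicClosure k →+* AlgebraicClosure k).comp φ, hk, hD, ?_, ?_⟩
    · intro a x hx
      rw [RingHom.comp_apply, hφ a x hx]
      exact g'.symm.commutes a
    · intro x
      change (σ ^ f) (g'.symm (φ x)) = g'.symm (φ x)
      have h1 : g'.symm (φ x) = ((g⁻¹ ⟨φ x, hφL x⟩ : L) : AlgebraicClosure k) := by
        rw [AlgEquiv.symm_apply_eq, ← hres, hg'']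
        have : g (g⁻¹ ⟨φ x, hφL x⟩) = (⟨φ x, hφL x⟩ : L) := by
          rw [← AlgEquiv.mul_apply, mul_inv_cancel, AlgEquiv.one_apply]
        rw [this]
      rw [h1, ← hres, hσf]
      congr 1
      have h2 := congrArg (fun y => g⁻¹ y) (hfixL x)
      simp only [AlgEquiv.mul_apply] at h2
      rw [← AlgEquiv.mul_apply g⁻¹ g, inv_mul_cancel, AlgEquiv.one_apply] at h2
      exact h2
  · intro x hx
    have h1 := hsum x hx
    have h2 := sum_diff B Q Q' (fun v hv => ((hQ v).1 hv).1) (hBad.toFinset ∪ hNfin.toFinset) (by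
      intro v hv hv'
      rw [Finset.mem_union, Set.Finite.mem_toFinset, Set.Finite.mem_toFinset]
      by_contra hcon
      push Not at hcon
      exact hv' ((hQ v).2 ⟨hv, hcon.1, hcon.2⟩)) x
    rw [abs_le] at h1 h2 ⊢
    constructor <;> linarith [h1.1, h1.2, h2.1, h2.2]

end

end Pool.Agent.Helper79.LN3
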